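import Pool.Agent.N311.SH.Stm

/-! Project SH (helper311), page MP_c6d336_gt: the length-area principle (leaf LA). -/

set_option autoImplicit false
open Set Metric Filter Topology MeasureTheory
open scoped ENNReal

namespace Pool.Agent.N985.SH
open Pool.Agent.N311.SH

/-- the real derivative `v ↦ v * a` of a holomorphic function -/
noncomputable def mulR (a : ℂ) : ℂ →L[ℝ] ℂ :=
  ((1 : ℂ →L[ℂ] ℂ).smulRight a).restrictScalars ℝ

theorem det_mulR (a : ℂ) : (mulR a).det = ‖a‖ ^ 2 := by
  have h1 : ((mulR a : ℂ →L[ℝ] ℂ) : ℂ →ₗ[ℝ] ℂ) = Algebra.lmul ℝ ℂ a := by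
    ext x
    simp [mulR, mul_comm]
  unfold ContinuousLinearMap.det
  rw [h1, ← Algebra.norm_apply, Algebra.norm_complex_apply, Complex.normSq_eq_norm_sq]

theorem area {Ω : Set ℂ} {h : ℂ → ℂ} (hO : IsOpen Ω) (hd : DifferentiableOn ℂ h Ω)
    (hi : InjOn h Ω) :
    ∫⁻ z in Ω, ENNReal.ofReal (‖deriv h z‖ ^ 2) = volume (h '' Ω) := by
  have h1 := lintegral_abs_det_fderiv_eq_addHaar_image volume (s := Ω) (f := h)
    (f' := fun z => mulR (deriv h z)) hO.measurableSet
    (fun z hz => by
      have := (hd.differentiableAt (hO.mem_nhds hz)).hasDerivAt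
      have h2 := this.hasFDerivAt.restrictScalars ℝ
      refine HasFDerivAt.hasFDerivWithinAt ?_
      convert h2 using 1
      ext
      simp [mulR]) hi
  rw [← h1]
  refine lintegral_congr fun z => ?_
  rw [det_mulR, abs_of_nonneg (by positivity)]

/-- the density -/
noncomputable def den (Ω : Set ℂ) (h : ℂ → ℂ) : ℂ → ℝ≥0∞ :=
  Ω.indicator (fun z => ENNReal.ofReal (‖deriv h z‖ ^ 2))

theorem measurable_den {Ω : Set ℂ} (h : ℂ → ℂ) (hO : IsOpen Ω) : Measurable (den Ω h) := by
  unfold den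
  exact (((measurable_deriv h).norm.pow_const 2).ennreal_ofReal).indicator hO.measurableSet

theorem polar_den {Ω : Set ℂ} (h : ℂ → ℂ) (hO : IsOpen Ω) (w c : ℂ) (hc : ‖c‖ = 1) :
    ∫⁻ r in Ioi (0 : ℝ), ENNReal.ofReal r *
      ∫⁻ θ in Ioo (-Real.pi) Real.pi, den Ω h (w + r * c * Complex.exp (θ * Complex.I)) =
    ∫⁻ z in Ω, ENNReal.ofReal (‖deriv h z‖ ^ 2) := by
  have hm := measurable_den h hO
  -- the motion `z ↦ w + c z`
  let u : Circle := ⟨c, by simp [Submonoid.unitSphere, hc]⟩
  have hrot : MeasurePreserving (fun z : ℂ => w + c * z) volume volume := by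
    have h1 : MeasurePreserving (rotation u) volume volume := (rotation u).measurePreserving
    have h2 : MeasurePreserving (fun z : ℂ => w + z) volume volume :=
      measurePreserving_add_left volume w
    exact h2.comp h1
  have e1 : ∫⁻ z in Ω, ENNReal.ofReal (‖deriv h z‖ ^ 2) = ∫⁻ z, den Ω h (w + c * z) := by
    rw [hrot.lintegral_comp hm]
    unfold den
    rw [lintegral_indicator hO.measurableSet]
  rw [e1, ← Complex.lintegral_comp_polarCoord_symm, polarCoord_target]
  rw [Measure.volume_eq_prod, ← Measure.prod_restrict]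
  have hmm : Measurable (fun p : ℝ × ℝ => den Ω h (w + c * Complex.polarCoord.symm p)) := by
    refine hm.comp ?_
    simp only [Complex.polarCoord_symm_apply]
    fun_prop
  rw [lintegral_prod _ (by
    refine Measurable.aemeasurable ?_
    simp only [smul_eq_mul]
    exact (ENNReal.measurable_ofReal.comp measurable_fst).mul hmm)]
  refine lintegral_congr fun r => ?_
  simp only [smul_eq_mul]
  rw [lintegral_const_mul]
  · congr 1
    refine lintegral_congr fun θ => ?_
    congr 1
    rw [Complex.polarCoord_symm_apply, Complex.exp_mul_I, Complex.ofReal_cos, Complex.ofReal_sin]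
    ring
  · exact hmm.comp (measurable_const.prodMk measurable_id)

/-- the elementary Cauchy-Schwarz inequality for one circle -/
theorem circle_le (Ω : Set ℂ) (h : ℂ → ℂ) (hO : IsOpen Ω) (w c : ℂ) {ε r : ℝ} (hε : 0 < ε)
    (hr : 0 < r)
    (hl : ENNReal.ofReal ε < ∫⁻ θ in Ioo (-Real.pi) Real.pi,
      Ω.indicator (fun z => ENNReal.ofReal (‖deriv h z‖ * r))
        (w + r * c * Complex.exp (θ * Complex.I))) :
    ENNReal.ofReal (ε ^ 2 / (2 * Real.pi)) * ENNReal.ofReal r⁻¹ ≤ ENNReal.ofReal r *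
      ∫⁻ θ in Ioo (-Real.pi) Real.pi, den Ω h (w + r * c * Complex.exp (θ * Complex.I)) := by
  have hpi := Real.pi_pos
  set K := ∫⁻ θ in Ioo (-Real.pi) Real.pi, den Ω h (w + r * c * Complex.exp (θ * Complex.I))
    with hK
  set t : ℝ := 2 * Real.pi / ε with ht
  have htpos : 0 < t := by positivity
  have hmd : Measurable (fun θ : ℝ => den Ω h (w + r * c * Complex.exp (θ * Complex.I))) :=
    (measurable_den h hO).comp (by fun_prop)
  -- pointwise
  have hpt : ∀ z : ℂ, 2 * Ω.indicator (fun z => ENNReal.ofReal (‖deriv h z‖ * r)) z ≤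
      ENNReal.ofReal (t * r ^ 2) * den Ω h z + ENNReal.ofReal t⁻¹ := by
    intro z
    unfold den
    by_cases hz : z ∈ Ω
    · rw [indicator_of_mem hz, indicator_of_mem hz, ← ENNReal.ofReal_mul (by positivity),
        ← ENNReal.ofReal_add (by positivity) (by positivity)]
      have : (2 : ℝ≥0∞) = ENNReal.ofReal 2 := by simp
      rw [this, ← ENNReal.ofReal_mul (by norm_num)]
      apply ENNReal.ofReal_le_ofReal
      have h1 : 0 ≤ (Real.sqrt t * (‖deriv h z‖ * r) - (Real.sqrt t)⁻¹) ^ 2 := sq_nonneg _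
      have h0 : (Real.sqrt t * (‖deriv h z‖ * r) - (Real.sqrt t)⁻¹) ^ 2 =
          Real.sqrt t ^ 2 * (‖deriv h z‖ * r) ^ 2 -
            2 * (Real.sqrt t * (Real.sqrt t)⁻¹) * (‖deriv h z‖ * r) + ((Real.sqrt t)⁻¹) ^ 2 := by
        ring
      have h2 : Real.sqrt t ≠ 0 := (Real.sqrt_pos.mpr htpos).ne'
      have h3 : Real.sqrt t ^ 2 = t := Real.sq_sqrt htpos.le
      have h4 : ((Real.sqrt t)⁻¹) ^ 2 = t⁻¹ := by rw [inv_pow, h3]
      have h5 : Real.sqrt t * (Real.sqrt t)⁻¹ = 1 := mul_inv_cancel₀ h2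
      rw [h0, h3, h4, h5] at h1
      nlinarith [h1]
    · rw [indicator_of_notMem hz]
      simp
  have h1 : 2 * ∫⁻ θ in Ioo (-Real.pi) Real.pi,
      Ω.indicator (fun z => ENNReal.ofReal (‖deriv h z‖ * r))
        (w + r * c * Complex.exp (θ * Complex.I)) ≤
      ENNReal.ofReal (t * r ^ 2) * K + ENNReal.ofReal t⁻¹ * ENNReal.ofReal (2 * Real.pi) := by
    have hmi : Measurable (fun θ : ℝ => Ω.indicator (fun z => ENNReal.ofReal (‖deriv h z‖ * r))
        (w + r * c * Complex.exp (θ * Complex.I))) := by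
      have : Measurable (Ω.indicator (fun z => ENNReal.ofReal (‖deriv h z‖ * r))) :=
        (((measurable_deriv h).norm.mul_const r).ennreal_ofReal).indicator hO.measurableSet
      exact this.comp (by fun_prop)
    rw [← lintegral_const_mul _ hmi]
    calc _ ≤ ∫⁻ θ in Ioo (-Real.pi) Real.pi,
          (ENNReal.ofReal (t * r ^ 2) * den Ω h (w + r * c * Complex.exp (θ * Complex.I)) +
            ENNReal.ofReal t⁻¹) := lintegral_mono fun θ => hpt _
      _ = _ := by
        rw [lintegral_add_right _ measurable_const, lintegral_const_mul _ hmd, ← hK]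
        congr 1
        rw [lintegral_const]
        simp only [MeasurableSet.univ, Measure.restrict_apply, univ_inter, Real.volume_Ioo]
        congr 2
        ring
  by_cases hKt : K = ⊤
  · rw [hKt, ENNReal.mul_top (by simpa using hr)]
    exact le_top
  -- pass to real numbers
  have hKr : K = ENNReal.ofReal K.toReal := (ENNReal.ofReal_toReal hKt).symm
  have h2 : ENNReal.ofReal (2 * ε) < ENNReal.ofReal (t * r ^ 2 * K.toReal + t⁻¹ * (2 * Real.pi)) := by
    have hi0 : 0 ≤ t⁻¹ := by positivity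
    rw [ENNReal.ofReal_mul (by norm_num), ENNReal.ofReal_add (by positivity) (by positivity),
      ENNReal.ofReal_mul (p := t * r ^ 2) (q := K.toReal) (by positivity),
      ENNReal.ofReal_mul (p := t⁻¹) (q := 2 * Real.pi) hi0, ← hKr]
    refine lt_of_lt_of_le ?_ h1
    have : ENNReal.ofReal 2 = 2 := by simp
    rw [this]
    exact (ENNReal.mul_lt_mul_iff_right (by norm_num) (by norm_num)).mpr hl
  have h3 : 2 * ε < t * r ^ 2 * K.toReal + t⁻¹ * (2 * Real.pi) :=
    (ENNReal.ofReal_lt_ofReal_iff_of_nonneg (by positivity)).mp h2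
  have h4 : t⁻¹ * (2 * Real.pi) = ε := by
    rw [ht]; field_simp
  rw [h4] at h3
  have h5 : ε < 2 * Real.pi / ε * r ^ 2 * K.toReal := by rw [← ht]; linarith
  rw [hKr, ← ENNReal.ofReal_mul (by positivity), ← ENNReal.ofReal_mul hr.le]
  apply ENNReal.ofReal_le_ofReal
  rw [← div_eq_mul_inv, div_div, div_le_iff₀ (by positivity)]
  have h6 : ε * ε < 2 * Real.pi * r ^ 2 * K.toReal := by
    have := mul_lt_mul_of_pos_left h5 hε
    calc ε * ε < ε * (2 * Real.pi / ε * r ^ 2 * K.toReal) := this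
      _ = _ := by field_simp
  nlinarith

theorem lintegral_inv_top {R : ℝ} (hR : 0 < R) :
    ∫⁻ r in Ioo (0 : ℝ) R, ENNReal.ofReal r⁻¹ = ⊤ := by
  by_contra hne
  have h1 : ¬ IntervalIntegrable (fun x : ℝ => x⁻¹) volume 0 R := by
    rw [intervalIntegrable_inv_iff]
    push Not
    exact ⟨hR.ne, left_mem_uIcc⟩
  apply h1
  rw [intervalIntegrable_iff_integrableOn_Ioo_of_le hR.le]
  refine ⟨measurable_inv.aestronglyMeasurable, ?_⟩
  rw [hasFiniteIntegral_iff_enorm]
  refine lt_of_le_of_lt (le_of_eq ?_) (lt_top_iff_ne_top.mpr hne)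
  refine setLIntegral_congr_fun measurableSet_Ioo ?_
  intro x hx
  simp only
  rw [Real.enorm_eq_ofReal (inv_nonneg.mpr hx.1.le)]

/-- LA: the length-area principle -/
theorem la : S_LA := by
  intro Ω h hO hd hi hv w c hc ε R hε hR
  by_contra hcon
  push Not at hcon
  have h1 := polar_den h hO w c hc
  rw [area hO hd hi] at h1
  have h2 : ∫⁻ r in Ioo (0 : ℝ) R, ENNReal.ofReal (ε ^ 2 / (2 * Real.pi)) * ENNReal.ofReal r⁻¹ ≤
      volume (h '' Ω) := by
    rw [← h1]
    calc _ ≤ ∫⁻ r in Ioo (0 : ℝ) R, ENNReal.ofReal r *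
          ∫⁻ θ in Ioo (-Real.pi) Real.pi,
            den Ω h (w + r * c * Complex.exp (θ * Complex.I)) := by
          refine setLIntegral_mono' measurableSet_Ioo fun r hr => ?_
          exact circle_le Ω h hO w c hε hr.1 (hcon r hr.1 hr.2)
      _ ≤ _ := lintegral_mono_set Ioo_subset_Ioi_self
  rw [lintegral_const_mul _ (by fun_prop), lintegral_inv_top hR, ENNReal.mul_top (by
    simp only [ne_eq, ENNReal.ofReal_eq_zero, not_le]
    have := Real.pi_pos
    positivity)] at h2
  exact absurd hv (not_lt.mpr h2)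

end Pool.Agent.N985.SH
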